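import Pool.Agent.MP_07e2b8_al.H18.Dim

/-!
A complete, reduced, equidimensional Cohen-Macaulay local ring `R` of dimension three, a finitely
generated module `N` of finite projective dimension and a minimal prime `p` of `R` contained in no
minimal prime of `N`.

`R = ℚ[[x,y,u,v,w]] / (x w, v w, x u - y v)`, `p = (w)`, and `N` is the cokernel of an explicit
`6 × 17` matrix, with a free resolution of ranks `6, 17, 16, 5` and support the `w`-axis.
-/

set_option autoImplicit false

namespace Pool.Agent.Results.MP_07e2b8_al.CohenMacaulay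

open Pool.Agent.MP_07e2b8_al.H18 TensorProduct

theorem result :
    ∃ (R : Type) (_ : CommRing R) (_ : Algebra ℚ R) (_ : IsNoetherianRing R) (_ : IsLocalRing R)
      (N : Type) (_ : AddCommGroup N) (_ : Module R N) (_ : Module.Finite R N) (_ : Nontrivial N),
      IsAdicComplete (IsLocalRing.maximalIdeal R) R ∧ IsReduced R ∧ ringKrullDim R = 3 ∧
      (∃ rs : List R, rs.length = 3 ∧ RingTheory.Sequence.IsRegular R rs) ∧
      (∀ P ∈ minimalPrimes R, ringKrullDim (R ⧸ P) = 3) ∧
      CategoryTheory.projectiveDimension (ModuleCat.of R N) ≠ ⊤ ∧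
      Module.supportDim R N = 1 ∧
      ∃ p ∈ minimalPrimes R, IsFiniteLength R ((R ⧸ p) ⊗[R] N) ∧
        ∀ q ∈ (Module.annihilator R N).minimalPrimes, ¬ p ≤ q :=
  ⟨Rg, inferInstance, (am.comp MvPowerSeries.C).toAlgebra, inferInstance, inferInstance, NN P0,
    inferInstance, inferInstance, inferInstance, inferInstance, complete, inferInstance, dim_eq,
    ⟨_, rfl, regSeq⟩, dim_min, pd_NN reg0, dim_NN, pT, pT_min,
    (quotTensorEquivQuotSMul (NN P0) pT).symm.isFiniteLength finLen,
    fun q hq h => w_not_qL (min_ann q hq ▸ h (Ideal.mem_span_singleton_self _))⟩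

end Pool.Agent.Results.MP_07e2b8_al.CohenMacaulay
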